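import Pool.Agent.Lib.MP_ba0fa5_ag.AA.DefsA

/-!
MP_ba0fa5_ag, Theorem A: statements of the modules.  Proofs: `PaperA.md` (same names).
-/

namespace Pool.Agent.Lib.MP_ba0fa5_ag.AA

open scoped Classical
open Finset

/-! ## Group M: Mertens, sums and products of the weights -/

/-- MERTAP. Mertens in progressions (from `H92.sum_char_primes` and `Nmert1Stmt`). -/
def MertapStmt : Prop := ∀ q : ℕ, 1 ≤ q → ∃ C : ℝ, ∀ a y : ℕ, a.Coprime q → 1 ≤ y →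
  |∑ l ∈ (Icc 1 y).filter (fun l => l.Prime ∧ l ≡ a [MOD q]), Real.log l / l
    - Real.log y / q.totient| ≤ C

/-- RECG. partial summation. -/
def RecgStmt : Prop := ∀ (α : ℕ → ℝ) (κ C₀ : ℝ), (∀ l, 0 ≤ α l ∧ α l ≤ 1) → 0 ≤ κ → 0 ≤ C₀ →
  (∀ y : ℕ, 1 ≤ y → |∑ l ∈ primesIn 0 y, α l * Real.log l / l - κ * Real.log y| ≤ C₀) →
  ∀ W y : ℕ, 2 ≤ W → W ≤ y →
    |∑ l ∈ primesIn W y, α l / l - κ * Real.log (Real.log y / Real.log W)| ≤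
      (4 * C₀ + 4 * κ) / Real.log W

/-- WMERT. Mertens for the weights `dl` (from MERTAP, `q = 8`). -/
def WmertStmt : Prop := ∃ C₀ : ℝ, ∀ y : ℕ, 1 ≤ y →
  |∑ l ∈ primesIn 0 y, dl l * Real.log l / l - 5 / 16 * Real.log y| ≤ C₀

/-- UPW. -/
def UpwStmt : Prop := ∃ C : ℝ, 0 < C ∧ ∀ W y : ℕ, 3 ≤ W → W ≤ y →
  ∑ n ∈ (Icc 1 y).filter (fun n => Rgh W n), fw n ≤
    C * (Real.log y / Real.log W) ^ (5 / 16 : ℝ)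

/-- LOWW. -/
def LowwStmt : Prop := ∃ c : ℝ, 0 < c ∧ ∀ W : ℕ, 3 ≤ W → ∃ y₀ : ℕ, ∀ y : ℕ, y₀ ≤ y →
  c * (Real.log y / Real.log W) ^ (5 / 16 : ℝ) ≤
    ∑ n ∈ (Icc 1 y).filter (fun n => Rgh W n), ws n / n

/-- VBND. (from Nmert1Stmt and RECG) -/
def VbndStmt : Prop := ∃ c C : ℝ, 0 < c ∧ 0 < C ∧ ∀ W z : ℕ, 3 ≤ W → W ≤ z →
  c * Real.log W / Real.log z ≤ VV W z ∧ VV W z ≤ C * Real.log W / Real.log z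

/-- ROUGHSUM. (from VBND or RECG) -/
def RoughsumStmt : Prop := ∃ C : ℝ, 0 < C ∧ ∀ z A : ℕ, 3 ≤ z → 1 ≤ A →
  ∑ n ∈ (Icc 1 (z ^ A)).filter (fun n => Rgh z n), (1 : ℝ) / n ≤ C * A

/-! ## Group S: sieve -/

/-- SELB. Selberg's sieve with the sharp weights (adapt `H48.nsieve`). -/
def SelbStmt : Prop := ∀ (P : Finset ℕ) (Ω : ℕ → Finset ℕ) (M D : ℕ), 1 ≤ D →
  (∀ l ∈ P, l.Prime ∧ (∀ r ∈ Ω l, r < l) ∧ (Ω l).card ≤ 2 ∧ 1 ≤ (Ω l).card ∧ (Ω l).card < l) →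
  (((range M).filter (fun w => ∀ l ∈ P, w % l ∉ Ω l)).card : ℝ) ≤
    M / (∑ s ∈ sfs P D, ∏ l ∈ s.primeFactors, ((Ω l).card : ℝ) / (l - (Ω l).card)) + (D : ℝ) ^ 4

/-- RANKB. Rankin's trick, sharp form. -/
def RankbStmt : Prop := ∃ C : ℝ, ∀ z D : ℕ, 2 ≤ z → 1 ≤ D → ∀ (P : Finset ℕ) (g : ℕ → ℝ),
  (∀ l ∈ P, l.Prime ∧ l ≤ z ∧ 0 ≤ g l ∧ g l ≤ 4 / l) →
  (1 - Real.exp (C - Real.log D / Real.log z)) * ∏ l ∈ P, (1 + g l) ≤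
    ∑ s ∈ sfs P D, ∏ l ∈ s.primeFactors, g l

/-- FLU. fundamental lemma, upper bound, at most two classes (from SELB, RANKB). -/
def FluStmt : Prop := ∃ B₀ : ℕ, ∃ c C : ℝ, 0 < c ∧ 0 < C ∧ ∀ z M : ℕ, 2 ≤ z → z ^ B₀ ≤ M →
  ∀ (P : Finset ℕ) (Ω : ℕ → Finset ℕ),
  (∀ l ∈ P, l.Prime ∧ 5 ≤ l ∧ l ≤ z ∧ (∀ r ∈ Ω l, r < l) ∧ 1 ≤ (Ω l).card ∧ (Ω l).card ≤ 2) →
  (((range M).filter (fun w => ∀ l ∈ P, w % l ∉ Ω l)).card : ℝ) ≤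
    (1 + C * Real.exp (-c * (Real.log M / Real.log z))) * M *
      ∏ l ∈ P, (1 - ((Ω l).card : ℝ) / l)

/-- FLL. fundamental lemma, lower bound, one class (Buchstab, from FLU, VBND). -/
def FllStmt : Prop := ∀ ε : ℝ, 0 < ε → ∃ B : ℕ, ∀ W z M : ℕ, 3 ≤ W → 2 ≤ z → z ^ B ≤ M →
  ∀ r : ℕ → ℕ, (∀ l, l.Prime → r l < l) →
  (1 - ε) * M * VV W z ≤
    (((range M).filter (fun w => ∀ l ∈ primesIn W z, w % l ≠ r l)).card : ℝ)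

/-- APU. rough numbers in progressions, upper bound (from FLU). -/
def ApuStmt : Prop := ∃ B : ℕ, ∀ W z q Y c : ℕ, 3 ≤ W → 2 ≤ z → 1 ≤ q → q * z ^ B ≤ Y →
  (∀ l ∈ primesIn W z, ¬ l ∣ q) →
  (((Icc 1 Y).filter (fun n => n ≡ c [MOD q] ∧ Rgh z n)).card : ℝ) ≤ 2 * ((Y : ℝ) / q) * VV W z

/-- APL. rough numbers in progressions, lower bound (from FLL). -/
def AplStmt : Prop := ∀ ε : ℝ, 0 < ε → ∃ B : ℕ, ∀ W z Y c : ℕ, 3 ≤ W → 2 ≤ z →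
  primorial W * z ^ B ≤ Y → c.Coprime (primorial W) →
  (1 - ε) * ((Y : ℝ) / (primorial W : ℝ)) * VV W z ≤
    (((Icc 1 Y).filter (fun n => n ≡ c [MOD primorial W] ∧ Rgh z n)).card : ℝ)

/-- PAIR. two linear forms (from FLU). -/
def PairStmt : Prop := ∀ ε : ℝ, 0 < ε → ∃ B : ℕ, ∀ W z X N₀ H H' b b' : ℕ, 3 ≤ W → 2 ≤ z →
  1 ≤ H → 1 ≤ H' → H.Coprime (primorial W) → H'.Coprime (primorial W) → b ≠ b' →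
  z ^ B * primorial W * H * H' ≤ X →
  (((NN W X N₀).filter (fun N => (H ∣ N + b ∧ Rgh z ((N + b) / H)) ∧
      H' ∣ N + b' ∧ Rgh z ((N + b') / H'))).card : ℝ) ≤
    if ((H.gcd H' : ℕ) : ℤ) ∣ (b : ℤ) - b' then
      (1 + ε) * ((X : ℝ) * (H.gcd H' : ℝ) / ((primorial W : ℝ) * H * H')) * VV W z ^ 2 *
        (Ph W z H * Ph W z H' * Ph W z ((b : ℤ) - b').natAbs)
    else 0

/-- BT. Brun-Titchmarsh (from FLU). -/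
def BtStmt : Prop := ∃ C : ℝ, 0 < C ∧ ∀ q a x : ℕ, 1 ≤ q → q ^ 2 ≤ x → 2 ≤ x → a.Coprime q →
  (((Ioc x (2 * x)).filter (fun l => l.Prime ∧ l ≡ a [MOD q])).card : ℝ) ≤
    C * x / (q.totient * Real.log x)

/-- BTSUM. (from BT) -/
def BtsumStmt : Prop := ∃ C : ℝ, 0 < C ∧ ∀ q a y : ℕ, 1 ≤ q → 2 ≤ y → a.Coprime q →
  ∑ n ∈ (Ioc (q ^ 2) y).filter (fun n => n ≡ a [MOD q]), ArithmeticFunction.vonMangoldt n / n ≤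
    C * Real.log y / q.totient

/-- BADJ. rough numbers with a prime factor `1 mod 2^(J+1)` (from APU, ROUGHSUM, MERTAP, RECG). -/
def BadjStmt : Prop := ∃ B : ℕ, ∀ A : ℕ, ∃ C : ℝ, 0 < C ∧ ∀ J W : ℕ, 3 ≤ W → ∃ z₀ : ℕ,
  ∀ z Y c : ℕ, z₀ ≤ z → z ^ B ≤ Y → Y ≤ z ^ A → c.Coprime (primorial W) →
  (((Icc 1 Y).filter (fun n => n ≡ c [MOD primorial W] ∧ Rgh z n ∧
      ∃ l : ℕ, l.Prime ∧ l ∣ n ∧ 2 ^ (J + 1) ∣ l - 1)).card : ℝ) ≤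
    C / 2 ^ J * ((Y : ℝ) / (primorial W : ℝ)) * VV W z

/-- RJLOW. (from APL, BADJ) -/
def RjlowStmt : Prop := ∀ ε : ℝ, 0 < ε → ∃ B : ℕ, ∀ A : ℕ, ∃ J : ℕ, 2 ≤ J ∧ ∀ W : ℕ, 3 ≤ W →
  ∃ z₀ : ℕ, ∀ z Y c : ℕ, z₀ ≤ z → z ^ B ≤ Y → Y ≤ z ^ A → c.Coprime (primorial W) →
  (1 - ε) * ((Y : ℝ) / (primorial W : ℝ)) * VV W z ≤
    (((Icc 1 Y).filter (fun n => n ≡ c [MOD primorial W] ∧ RJ z J n)).card : ℝ)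

/-! ## Group A: the weights in progressions -/

/-- APCORE. (from UPW, BTSUM) -/
def ApcoreStmt : Prop := ∃ C : ℝ, 0 < C ∧ ∀ W k : ℕ, 3 ≤ W → ∃ Y₀ : ℕ, ∀ Y q a : ℕ, Y₀ ≤ Y →
  1 ≤ q → (q : ℝ) ≤ Real.log Y ^ k → primorial W ∣ q → a.Coprime q →
  ∑ n ∈ (Ioc (Nat.sqrt Y) (Y ^ 3)).filter (fun n => n ≡ a [MOD q]), fw n ≤
    C * (Real.log Y / Real.log W) ^ (5 / 16 : ℝ) / q.totient

/-- APSUM. (from APCORE) -/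
def ApsumStmt : Prop := ∃ C : ℝ, 0 < C ∧ ∀ W k : ℕ, 3 ≤ W → ∃ Y₀ : ℕ, ∀ Y D a c : ℕ, Y₀ ≤ Y →
  1 ≤ D → (D : ℝ) ≤ Real.log Y ^ k → D.Coprime (primorial W) → a.Coprime (primorial W) →
  ∑ n ∈ (cls W a Y (Y ^ 3)).filter (fun n => n ≡ c [MOD D]), fw n ≤ C * SS W Y / D.totient

/-- CLASSLOW. (from LOWW, MERTAP, RECG) -/
def ClasslowStmt : Prop := ∃ c : ℝ, 0 < c ∧ ∀ W : ℕ, 3 ≤ W → ∃ Y₀ : ℕ, ∀ Y a : ℕ, Y₀ ≤ Y →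
  a.Coprime (primorial W) → c * SS W Y ≤ ∑ n ∈ cls W a Y (Y ^ 3), ws n / n

/-- TRIV. -/
def TrivStmt : Prop := ∃ C : ℝ, 0 < C ∧ ∀ Y D c : ℕ, 2 ≤ Y → 1 ≤ D →
  (∑ n ∈ (Ioc Y (Y ^ 3)).filter (fun n => n ≡ c [MOD D]), (1 : ℝ) / n ≤
    1 / Y + C * Real.log Y / D) ∧
  (∑ n ∈ (Ioc Y (Y ^ 3)).filter (fun n => D ∣ n), (1 : ℝ) / n ≤ C * Real.log Y / D) ∧
  (∑ n ∈ (Ioc Y (Y ^ 3)).filter (fun n => n ≡ c [MOD D] ∧ D ≤ 3 * n), (1 : ℝ) / n ≤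
    C * Real.log Y / D)

/-- PHIX. (from APSUM, CLASSLOW, TRIV) -/
def PhixStmt : Prop := ∃ C : ℝ, 0 < C ∧ ∀ W : ℕ, 3 ≤ W → ∃ Y₀ : ℕ, ∀ Y a : ℕ, Y₀ ≤ Y →
  a.Coprime (primorial W) → ∑ n ∈ cls W a Y (Y ^ 3), fw n ≤
    (1 + C * (W : ℝ) ^ (-(1 / 4) : ℝ)) * ∑ n ∈ cls W a Y (Y ^ 3), ws n / n

/-- COPR. (from APSUM, CLASSLOW, TRIV) -/
def CoprStmt : Prop := ∃ C : ℝ, 0 < C ∧ ∀ W : ℕ, 3 ≤ W → ∃ Z₀ : ℕ, ∀ Z c : ℕ, Z₀ ≤ Z →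
  c.Coprime (primorial W) →
  (1 - C * (W : ℝ) ^ (-(1 / 4) : ℝ)) * mass W c Z ≤ ∑ q ∈ Box W c Z, ws (HH q) / HH q

/-- MASSLOW. (from CLASSLOW, VBND) -/
def MasslowStmt : Prop := ∀ W : ℕ, 3 ≤ W → ∀ R : ℝ, ∃ Z₀ : ℕ, ∀ Z c : ℕ, Z₀ ≤ Z →
  c.Coprime (primorial W) → R ≤ VV W (zz Z) * mass W c Z

/-! ## Group X: sums over pairs of quadruples -/

/-- ABS. bookkeeping for `t | x u v k`, `D | x + u + v - b`. -/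
def AbsStmt : Prop := ∀ (X U V K : Finset ℕ) (f βx βu βv βk : ℕ → ℝ) (t D : ℕ) (b : ℤ),
  1 ≤ t → 1 ≤ D → t ∣ D → (∀ n, 0 ≤ f n) →
  (∀ s, 0 ≤ βx s ∧ 0 ≤ βu s ∧ 0 ≤ βv s ∧ 0 ≤ βk s) →
  (∀ s, s ∣ t → ∑ n ∈ X.filter (fun n => s ∣ n), f n ≤ βx s) →
  (∀ s c, s ∣ t → ∑ n ∈ U.filter (fun n => n ≡ c [MOD s]), f n ≤ βu s) →
  (∀ c, ∑ n ∈ V.filter (fun n => n ≡ c [MOD D]), f n ≤ βv D) →
  (∀ s, s ∣ t → ∑ n ∈ K.filter (fun n => s ∣ n), f n ≤ βk s) →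
  ∑ q ∈ (X ×ˢ U ×ˢ V ×ˢ K).filter (fun q => Cop q ∧ t ∣ HH q ∧ (D : ℤ) ∣ (bb q : ℤ) - b),
      f q.1 * f q.2.1 * f q.2.2.1 * f q.2.2.2 ≤
    ∑ s ∈ (t.divisors ×ˢ t.divisors ×ˢ t.divisors ×ˢ t.divisors).filter
      (fun s => Cop s ∧ HH s = t), βx s.1 * βu (s.2.1 * s.2.2.1) * βv D * βk s.2.2.2

/-- ABT. the same without the congruence. -/
def AbtStmt : Prop := ∀ (X U V K : Finset ℕ) (f βx βu βv βk : ℕ → ℝ) (t : ℕ), 1 ≤ t →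
  (∀ n, 0 ≤ f n) → (∀ s, 0 ≤ βx s ∧ 0 ≤ βu s ∧ 0 ≤ βv s ∧ 0 ≤ βk s) →
  (∀ s, s ∣ t → ∑ n ∈ X.filter (fun n => s ∣ n), f n ≤ βx s) →
  (∀ s, s ∣ t → ∑ n ∈ U.filter (fun n => s ∣ n), f n ≤ βu s) →
  (∀ s, s ∣ t → ∑ n ∈ V.filter (fun n => s ∣ n), f n ≤ βv s) →
  (∀ s, s ∣ t → ∑ n ∈ K.filter (fun n => s ∣ n), f n ≤ βk s) →
  ∑ q ∈ (X ×ˢ U ×ˢ V ×ˢ K).filter (fun q => Cop q ∧ t ∣ HH q),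
      f q.1 * f q.2.1 * f q.2.2.1 * f q.2.2.2 ≤
    ∑ s ∈ (t.divisors ×ˢ t.divisors ×ˢ t.divisors ×ˢ t.divisors).filter
      (fun s => Cop s ∧ HH s = t), βx s.1 * βu s.2.1 * βv s.2.2.1 * βk s.2.2.2

/-- DIVB. divisor bound. -/
def DivbStmt : Prop := ∀ ε : ℝ, 0 < ε → ∃ C : ℝ, 0 < C ∧ ∀ n : ℕ, 1 ≤ n →
  (n.divisors.card : ℝ) ≤ C * (n : ℝ) ^ ε ∧ (n : ℝ) / n.totient ≤ C * (n : ℝ) ^ ε ∧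
  (4 : ℝ) ^ n.primeFactors.card ≤ C * (n : ℝ) ^ ε

/-- TERM. one term, small `(t, d)` (from ABS, ABT, APSUM, CLASSLOW). -/
def TermStmt : Prop := ∃ C : ℝ, 0 < C ∧ ∀ W : ℕ, 3 ≤ W → ∃ Z₀ : ℕ, ∀ Z c t d : ℕ, Z₀ ≤ Z →
  c.Coprime (primorial W) → 1 ≤ t → t ≤ TZ Z → 1 ≤ d → d ≤ TZ Z → Rgh W t → Rgh W d →
  pairSum W c Z t d ≤
    C * (t.divisors.card : ℝ) ^ 8 / ((t.totient : ℝ) ^ 2 * (t.lcm d).totient) * mass W c Z ^ 2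

/-- EXPM. the small `(t, d)` (from TERM, DIVB). -/
def ExpmStmt : Prop := ∃ C : ℝ, 0 < C ∧ ∀ W : ℕ, 3 ≤ W → ∃ Z₀ : ℕ, ∀ Z c : ℕ, Z₀ ≤ Z →
  c.Coprime (primorial W) →
  ∑ s ∈ (Icc 1 (TZ Z) ×ˢ Icc 1 (TZ Z)).filter (fun s => s ≠ (1, 1) ∧ Rgh W s.1 ∧ Rgh W s.2),
    cf s.1 s.2 * pairSum W c Z s.1 s.2 ≤ C * (W : ℝ) ^ (-(1 / 4) : ℝ) * mass W c Z ^ 2

/-- TERMT. one term, any `(t, d)` (from ABS, ABT, TRIV). -/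
def TermtStmt : Prop := ∃ C : ℝ, 0 < C ∧ ∀ W Z c t d : ℕ, 3 ≤ W → 2 ≤ Z →
  c.Coprime (primorial W) → 1 ≤ t → 1 ≤ d →
  pairSum W c Z t d ≤ C * Real.log Z ^ 8 * (t.divisors.card : ℝ) ^ 8 *
    (1 / ((t : ℝ) * (t.lcm d)) * (1 / t + 1 / (Z : ℝ) ^ 10))

/-- EXPT. the large `(t, d)` (from TERMT, DIVB). -/
def ExptStmt : Prop := ∀ W : ℕ, 3 ≤ W → ∀ δ : ℝ, 0 < δ → ∃ Z₀ : ℕ, ∀ Z c : ℕ, Z₀ ≤ Z →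
  c.Coprime (primorial W) →
  ∑ s ∈ (Icc 1 (3 * Z ^ 300) ×ˢ Icc 1 (3 * Z ^ 300)).filter
      (fun s => ¬ (s.1 ≤ TZ Z ∧ s.2 ≤ TZ Z)),
    cf s.1 s.2 * pairSum W c Z s.1 s.2 ≤ δ

/-- EXPAND. (elementary) -/
def ExpandStmt : Prop := ∀ W Z c : ℕ, 3 ≤ W → 2 ≤ Z → c.Coprime (primorial W) →
  ∑ p ∈ (Box W c Z ×ˢ Box W c Z).filter (fun p => bb p.1 ≠ bb p.2 ∧
      (((HH p.1).gcd (HH p.2) : ℕ) : ℤ) ∣ (bb p.1 : ℤ) - bb p.2), pairWt W Z p ≤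
    ∑ s ∈ (Icc 1 (3 * Z ^ 300) ×ˢ Icc 1 (3 * Z ^ 300)).filter
        (fun s => Rgh W s.1 ∧ Rgh W s.2),
      cf s.1 s.2 * pairSum W c Z s.1 s.2

/-- EXP. (from EXPAND, EXPM, EXPT, PHIX, MASSLOW) -/
def ExpStmt : Prop := ∃ C : ℝ, 0 < C ∧ ∀ W : ℕ, 3 ≤ W → ∃ Z₀ : ℕ, ∀ Z c : ℕ, Z₀ ≤ Z →
  c.Coprime (primorial W) →
  ∑ p ∈ (Box W c Z ×ˢ Box W c Z).filter (fun p => bb p.1 ≠ bb p.2 ∧
      (((HH p.1).gcd (HH p.2) : ℕ) : ℤ) ∣ (bb p.1 : ℤ) - bb p.2), pairWt W Z p ≤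
    (1 + C * (W : ℝ) ^ (-(1 / 4) : ℝ)) * mass W c Z ^ 2

/-! ## Group T: moments -/

/-- FIRST. (from RJLOW) -/
def FirstStmt : Prop := ∀ ε : ℝ, 0 < ε → ∃ B : ℕ, ∀ A : ℕ, ∃ J : ℕ, 2 ≤ J ∧ ∀ W : ℕ, 3 ≤ W →
  ∃ Z₀ : ℕ, ∀ Z X N₀ c : ℕ, Z₀ ≤ Z → zz Z ^ B ≤ X → X ≤ zz Z ^ A → c.Coprime (primorial W) →
  (N₀ + c).Coprime (primorial W) → ∀ q ∈ Box W c Z,
  (1 - ε) * ((X : ℝ) / ((primorial W : ℝ) * HH q)) * VV W (zz Z) ≤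
    (((NN W X N₀).filter (Rp Z J q)).card : ℝ)

/-- SECOND. (from PAIR, EXP) -/
def SecondStmt : Prop := ∃ C : ℝ, 0 < C ∧ ∀ ε : ℝ, 0 < ε → ∃ B : ℕ, ∀ W : ℕ, 3 ≤ W →
  ∃ Z₀ : ℕ, ∀ Z X N₀ c : ℕ, Z₀ ≤ Z → zz Z ^ B ≤ X → c.Coprime (primorial W) →
  ∑ p ∈ (Box W c Z ×ˢ Box W c Z).filter (fun p => bb p.1 ≠ bb p.2),
      ws (HH p.1) * ws (HH p.2) * 4 ^ ((HH p.1).gcd (HH p.2)).primeFactors.card *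
        (((NN W X N₀).filter (fun N => Rw Z p.1 N ∧ Rw Z p.2 N)).card : ℝ) ≤
    (1 + ε) * (1 + C * (W : ℝ) ^ (-(1 / 4) : ℝ)) * ((X : ℝ) / (primorial W : ℝ)) *
      (VV W (zz Z) * mass W c Z) ^ 2

/-- ZERO. (from APU) -/
def ZeroStmt : Prop := ∃ B : ℕ, ∀ W : ℕ, 3 ≤ W → ∃ Z₀ : ℕ, ∀ Z X N₀ c : ℕ, Z₀ ≤ Z →
  zz Z ^ B ≤ X → c.Coprime (primorial W) →
  ∑ p ∈ (Box W c Z ×ˢ Box W c Z).filter (fun p => bb p.1 = bb p.2),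
      ws (HH p.1) * (((NN W X N₀).filter (fun N => Rw Z p.1 N ∧ Rw Z p.2 N)).card : ℝ) ≤
    4 * ((X : ℝ) / (primorial W : ℝ)) * (VV W (zz Z) * mass W c Z) + X / Real.sqrt Z

/-- UNITS. number of residues which are good for `n`. -/
def UnitsStmt : Prop := ∀ Y n : ℕ, 1 ≤ n → Odd n → (∀ l : ℕ, l.Prime → l ∣ n → l ≤ Y) →
  (((Om Y).filter (fun a => Gd a n)).card : ℝ) = (Om Y).card * wt n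

/-- PROB1. first moment (from UNITS). -/
def Prob1Stmt : Prop := ∀ W c Z J X N₀ : ℕ, 3 ≤ W → 2 ≤ Z → 3 * Z ^ 300 ≤ X →
  c.Coprime (primorial W) → (N₀ + c).Coprime (primorial W) →
  ∑ s ∈ NN W X N₀ ×ˢ Om (2 * X), Tsum W c Z J s.2 s.1 =
    (Om (2 * X)).card * ∑ q ∈ Box W c Z, ws (HH q) * (((NN W X N₀).filter (Rp Z J q)).card : ℝ)

/-- PROB2. second moment (from UNITS). -/
def Prob2Stmt : Prop := ∀ W c Z J X N₀ A : ℕ, 3 ≤ W → 4 ≤ Z → 2 ≤ J → 3 * Z ^ 300 ≤ X →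
  2 * X ≤ zz Z ^ A → c.Coprime (primorial W) → (N₀ + c).Coprime (primorial W) →
  ∑ s ∈ NN W X N₀ ×ˢ Om (2 * X), Tsum W c Z J s.2 s.1 ^ 2 ≤
    (Om (2 * X)).card * (
      (∑ p ∈ (Box W c Z ×ˢ Box W c Z).filter (fun p => bb p.1 ≠ bb p.2),
        ws (HH p.1) * ws (HH p.2) * 4 ^ ((HH p.1).gcd (HH p.2)).primeFactors.card *
          (((NN W X N₀).filter (fun N => Rw Z p.1 N ∧ Rw Z p.2 N)).card : ℝ)) +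
      2 ^ (J * A) * ∑ p ∈ (Box W c Z ×ˢ Box W c Z).filter (fun p => bb p.1 = bb p.2),
        ws (HH p.1) * (((NN W X N₀).filter (fun N => Rw Z p.1 N ∧ Rw Z p.2 N)).card : ℝ))

/-- CORE. (from FIRST, COPR, SECOND, ZERO, MASSLOW, PROB1, PROB2) -/
def CoreStmt : Prop := ∀ η : ℝ, 0 < η → ∃ W : ℕ, 3 ≤ W ∧ ∃ X₀ : ℕ, ∀ X N₀ c : ℕ, X₀ ≤ X →
  c.Coprime (primorial W) → (N₀ + c).Coprime (primorial W) →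
  (1 - η) * ((X : ℝ) / (primorial W : ℝ)) * (Om (2 * X)).card ≤
    (((NN W X N₀ ×ˢ Om (2 * X)).filter (fun s => RepA (2 * X) s.2 s.1)).card : ℝ)

/-- CLS. (Chinese remainder theorem) -/
def ClsStmt : Prop := ∀ W N₀ : ℕ, Even N₀ → ∃ c : ℕ, c.Coprime (primorial W) ∧
  (N₀ + c).Coprime (primorial W)

/-- NTMAIN. (from CORE, CLS) -/
def NtmainStmt : Prop := ∀ η : ℝ, 0 < η → ∃ X₀ : ℕ, ∀ X : ℕ, X₀ ≤ X →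
  (((Icc 1 X ×ˢ Om (2 * X)).filter (fun s => Even s.1 ∧ ¬ RepA (2 * X) s.2 s.1)).card : ℝ) ≤
    η * X * (Om (2 * X)).card

/-- LINKA. -/
def LinkaStmt : Prop := ∀ p a Y n : ℕ, p.Prime → p ≡ a [MOD MM Y] → Odd n →
  (∀ l : ℕ, l.Prime → l ∣ n → l ≤ Y) → Gd a n → ∃ i : ℕ, 0 < i ∧ n ∣ p ^ i + 1

/-- LOGD. (from MERTAP) -/
def LogdStmt : Prop := ∀ (ε : ℝ) (P : ℕ → Prop), MostClasses ε P → MostPrimes ε P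

/-- FINALA. Theorem A (from NTMAIN, LINKA, LOGD, and `GfinalStmt` of the first wave). -/
def FinalaStmt : Prop := ∀ ε δ : ℝ, 0 < ε → 0 < δ → ∃ X₀ : ℕ, ∀ X : ℕ, X₀ ≤ X →
  (1 - δ) * X ≤ (((Icc 1 X).filter (fun g => MostClasses ε (fun p => SupersingularGenus p g) ∧
    MostPrimes ε (fun p => SupersingularGenus p g))).card : ℝ)

end Pool.Agent.Lib.MP_ba0fa5_ag.AA
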