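import Pool.Agent.Lib.MP_ba0fa5_ag.H1.Final
import Pool.Agent.Lib.MP_ba0fa5_ag.AA.H1.Cls
import Pool.Agent.Lib.MP_ba0fa5_ag.AA.H1.Ntmain
import Pool.Agent.Lib.MP_ba0fa5_ag.AA.H15.Recg
import Pool.Agent.Lib.MP_ba0fa5_ag.AA.H15.Upw
import Pool.Agent.Lib.MP_ba0fa5_ag.AA.H15.Vbnd
import Pool.Agent.Lib.MP_ba0fa5_ag.AA.H15.Wmert
import Pool.Agent.Lib.MP_ba0fa5_ag.AA.H30.APU
import Pool.Agent.Lib.MP_ba0fa5_ag.AA.H30.FLU
import Pool.Agent.Lib.MP_ba0fa5_ag.AA.H30.SELB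
import Pool.Agent.Lib.MP_ba0fa5_ag.AA.H35.Triv
import Pool.Agent.Lib.MP_ba0fa5_ag.AA.H37.Exp
import Pool.Agent.Lib.MP_ba0fa5_ag.AA.H37.Expm
import Pool.Agent.Lib.MP_ba0fa5_ag.AA.H38.Masslow
import Pool.Agent.Lib.MP_ba0fa5_ag.AA.H38.Mertap
import Pool.Agent.Lib.MP_ba0fa5_ag.AA.H47.Apsum
import Pool.Agent.Lib.MP_ba0fa5_ag.AA.H47.Btsum
import Pool.Agent.Lib.MP_ba0fa5_ag.AA.H47.Prob
import Pool.Agent.Lib.MP_ba0fa5_ag.AA.H54.Bt
import Pool.Agent.Lib.MP_ba0fa5_ag.AA.H54.Divb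
import Pool.Agent.Lib.MP_ba0fa5_ag.AA.H54.Rankb
import Pool.Agent.Lib.MP_ba0fa5_ag.AA.H58.Expand
import Pool.Agent.Lib.MP_ba0fa5_ag.AA.H58.Term
import Pool.Agent.Lib.MP_ba0fa5_ag.AA.H63.Rjlow
import Pool.Agent.Lib.MP_ba0fa5_ag.AA.H64.Fll
import Pool.Agent.Lib.MP_ba0fa5_ag.AA.H69.Apcore
import Pool.Agent.Lib.MP_ba0fa5_ag.AA.H70.Classlow
import Pool.Agent.Lib.MP_ba0fa5_ag.AA.H74.Expt
import Pool.Agent.Lib.MP_ba0fa5_ag.AA.H74.Termt
import Pool.Agent.Lib.MP_ba0fa5_ag.AA.H75.Core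
import Pool.Agent.Lib.MP_ba0fa5_ag.AA.H75.First
import Pool.Agent.Lib.MP_ba0fa5_ag.AA.H75.Second
import Pool.Agent.Lib.MP_ba0fa5_ag.AA.H78.Phix
import Pool.Agent.Lib.MP_ba0fa5_ag.AA.H81.Abs
import Pool.Agent.Lib.MP_ba0fa5_ag.AA.H81.Units
import Pool.Agent.Lib.MP_ba0fa5_ag.AA.H97.Copr
import Pool.Agent.Lib.MP_ba0fa5_ag.AA.H97.Loww
import Pool.Agent.Lib.MP_ba0fa5_ag.H79.Badj
import Pool.Agent.Lib.MP_ba0fa5_ag.H79.Zero

/-!
# Assembly of Theorem A
-/

set_option autoImplicit false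

namespace Pool.Agent.Lib.MP_ba0fa5_ag.AA

theorem a_mert1 : Nmert1Stmt := H72.nmert1
theorem a_mertap : MertapStmt := H38.mertap a_mert1
theorem a_recg : RecgStmt := H15.recg
theorem a_wmert : WmertStmt := H15.wmert a_mertap
theorem a_upw : UpwStmt := H15.upw a_wmert a_recg
theorem a_vbnd : VbndStmt := H15.vbnd a_recg
theorem a_roughsum : RoughsumStmt := H15.roughsum a_vbnd
theorem a_selb : SelbStmt := H30.selb
theorem a_rankb : RankbStmt := H54.rankb a_mert1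
theorem a_loww : LowwStmt := H97.loww a_wmert a_recg a_rankb
theorem a_flu : FluStmt := H30.flu a_selb a_rankb a_vbnd
theorem a_fll : FllStmt := H64.fll a_flu a_vbnd a_mert1
theorem a_apu : ApuStmt := H30.apu a_flu
theorem a_apl : AplStmt := H30.apl a_fll
theorem a_pair : PairStmt := H75.pair a_flu
theorem a_bt : BtStmt := H54.bt a_flu a_vbnd
theorem a_btsum : BtsumStmt := H47.btsum a_bt
theorem a_apcore : ApcoreStmt := H69.apcore a_upw a_btsum
theorem a_apsum : ApsumStmt := H47.apsum a_apcore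
theorem a_classlow : ClasslowStmt := H70.classlow a_loww a_mertap a_recg
theorem a_triv : TrivStmt := H35.triv
theorem a_divb : DivbStmt := H54.divb
theorem a_phix : PhixStmt := H78.phix a_apsum a_classlow a_triv a_divb
theorem a_copr : CoprStmt := H97.copr a_apsum a_classlow a_triv
theorem a_masslow : MasslowStmt := H38.masslow a_classlow a_vbnd
theorem a_abs : AbsStmt := H81.abs'
theorem a_abt : AbtStmt := H81.abt
theorem a_term : TermStmt := H58.term a_abs a_abt a_apsum a_classlow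
theorem a_expm : ExpmStmt := H37.expm a_term a_divb
theorem a_termt : TermtStmt := H74.termt a_abs a_abt a_triv
theorem a_expt : ExptStmt := H74.expt a_termt a_divb
theorem a_expand : ExpandStmt := H58.expand
theorem a_units : UnitsStmt := H81.units
theorem a_prob1 : Prob1Stmt := H47.prob1 a_units
theorem a_prob2 : Prob2Stmt := H47.prob2 a_units

theorem a_exp : ExpStmt := H37.exp a_expand a_expm a_expt a_phix a_masslow
theorem a_badj : BadjStmt :=
  Pool.Agent.Lib.MP_ba0fa5_ag.H79.badj a_apu a_roughsum a_mertap a_recg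
theorem a_zero : ZeroStmt := Pool.Agent.Lib.MP_ba0fa5_ag.H79.zero a_apu
theorem a_rjlow : RjlowStmt := H63.rjlow a_apl a_badj
theorem a_first : FirstStmt := H75.first a_rjlow
theorem a_second : SecondStmt := H75.second a_pair a_exp
theorem a_core : CoreStmt := H75.core a_first a_copr a_second a_zero a_masslow a_prob1 a_prob2

/-- Theorem A. -/
theorem a_finala : FinalaStmt :=
  H1.finala (H1.ntmain a_core H1.cls) H1.linka (H1.logd a_mertap)
    Pool.Agent.Lib.MP_ba0fa5_ag.H1.gfinal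

end Pool.Agent.Lib.MP_ba0fa5_ag.AA
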