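import Pool.Agent.Lib.MP_ba0fa5_ag.Iface

/-!
MP_ba0fa5_ag, Theorem A (almost all pairs `(g, p)`): definitions.  See `PaperA.md`.
-/

namespace Pool.Agent.Lib.MP_ba0fa5_ag.AA

open scoped Classical
open Finset

/-! ### Good residues -/

/-- the odd part of `l - 1` -/
def oo (l : ℕ) : ℕ := (l - 1) / 2 ^ padicValNat 2 (l - 1)

/-- all prime factors `l` of `n` divide `a ^ (odd part of l - 1) + 1` -/
def Gd (a n : ℕ) : Prop := ∀ l : ℕ, l.Prime → l ∣ n → l ∣ a ^ oo l + 1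

/-- probability that the prime `l` is good -/
noncomputable def delta (l : ℕ) : ℝ := (1 / 2 : ℝ) ^ padicValNat 2 (l - 1)

/-- probability that all primes of `n` are good -/
noncomputable def wt (n : ℕ) : ℝ := ∏ l ∈ n.primeFactors, delta l

/-- product of the odd primes up to `Y` -/
noncomputable def MM (Y : ℕ) : ℕ := ∏ l ∈ (Icc 3 Y).filter Nat.Prime, l

/-- reduced residues modulo `MM Y` -/
noncomputable def Om (Y : ℕ) : Finset ℕ := (range (MM Y)).filter (fun a => a.Coprime (MM Y))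

/-! ### Weights -/

/-- `1/2` for `l = 3 mod 4`, `1/4` for `l = 5 mod 8`, `0` otherwise -/
noncomputable def dl (l : ℕ) : ℝ := if l % 4 = 3 then 1 / 2 else if l % 8 = 5 then 1 / 4 else 0

/-- the completely multiplicative weight with the values `dl l` at the primes -/
noncomputable def ws (n : ℕ) : ℝ := ∏ l ∈ n.primeFactors, dl l ^ n.factorization l

/-- `ws n / φ(n)` -/
noncomputable def fw (n : ℕ) : ℝ := ws n / n.totient

/-- all prime factors of `n` are larger than `z` -/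
def Rgh (z n : ℕ) : Prop := ∀ l : ℕ, l.Prime → l ∣ n → z < l

/-- `n` is `z`-rough and has no prime factor `l = 1 mod 2 ^ (J + 1)` -/
def RJ (z J n : ℕ) : Prop := Rgh z n ∧ ∀ l : ℕ, l.Prime → l ∣ n → ¬ 2 ^ (J + 1) ∣ l - 1

/-- the primes in `(W, z]` -/
def primesIn (W z : ℕ) : Finset ℕ := (Ioc W z).filter Nat.Prime

/-- `∏ (1 - 1/l)` over the primes in `(W, z]` -/
noncomputable def VV (W z : ℕ) : ℝ := ∏ l ∈ primesIn W z, (1 - 1 / (l : ℝ))

/-- `∏ (1 - 1/l)⁻¹` over the prime factors of `n` in `(W, z]` -/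
noncomputable def Ph (W z n : ℕ) : ℝ :=
  ∏ l ∈ n.primeFactors.filter (fun l => W < l ∧ l ≤ z), (1 - 1 / (l : ℝ))⁻¹

/-- normal size of the sums over one class modulo `primorial W` -/
noncomputable def SS (W Y : ℕ) : ℝ :=
  (Real.log Y / Real.log W) ^ (5 / 16 : ℝ) / (primorial W).totient

/-- the class `a` modulo `primorial W` in `(lo, hi]` -/
def cls (W a lo hi : ℕ) : Finset ℕ := (Ioc lo hi).filter (fun n => n ≡ a [MOD primorial W])

/-! ### The quadruples `q = (x, u, v, k)` -/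

/-- `H = x u v k` -/
def HH (q : ℕ × ℕ × ℕ × ℕ) : ℕ := q.1 * q.2.1 * q.2.2.1 * q.2.2.2

/-- `b = x + u + v` -/
def bb (q : ℕ × ℕ × ℕ × ℕ) : ℕ := q.1 + q.2.1 + q.2.2.1

/-- pairwise coprime -/
def Cop (q : ℕ × ℕ × ℕ × ℕ) : Prop := q.1.Coprime q.2.1 ∧ q.1.Coprime q.2.2.1 ∧
  q.1.Coprime q.2.2.2 ∧ q.2.1.Coprime q.2.2.1 ∧ q.2.1.Coprime q.2.2.2 ∧ q.2.2.1.Coprime q.2.2.2

/-- `x = c`, `u = c`, `v = -c`, `k = 1` modulo `primorial W`, `x, k` in `(Z, Z ^ 3]`, `u` in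
`(Z ^ 10, Z ^ 30]`, `v` in `(Z ^ 100, Z ^ 300]` -/
def BoxAll (W c Z : ℕ) : Finset (ℕ × ℕ × ℕ × ℕ) :=
  cls W c Z (Z ^ 3) ×ˢ cls W c (Z ^ 10) ((Z ^ 10) ^ 3) ×ˢ
    cls W ((primorial W - 1) * c) (Z ^ 100) ((Z ^ 100) ^ 3) ×ˢ cls W 1 Z (Z ^ 3)

/-- the pairwise coprime quadruples -/
noncomputable def Box (W c Z : ℕ) : Finset (ℕ × ℕ × ℕ × ℕ) := (BoxAll W c Z).filter Cop

/-- total mass of `BoxAll` -/
noncomputable def mass (W c Z : ℕ) : ℝ := ∑ q ∈ BoxAll W c Z, ws (HH q) / HH q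

/-- the sifting limit -/
def zz (Z : ℕ) : ℕ := Z ^ 301

/-- the numbers `N = N₀ mod primorial W` in `[1, X]` -/
def NN (W X N₀ : ℕ) : Finset ℕ := (Icc 1 X).filter (fun N => N ≡ N₀ [MOD primorial W])

/-- `q` represents `N` -/
def Rp (Z J : ℕ) (q : ℕ × ℕ × ℕ × ℕ) (N : ℕ) : Prop :=
  HH q ∣ N + bb q ∧ RJ (zz Z) J ((N + bb q) / HH q)

/-- `q` represents `N`, weak form -/
def Rw (Z : ℕ) (q : ℕ × ℕ × ℕ × ℕ) (N : ℕ) : Prop :=
  HH q ∣ N + bb q ∧ Rgh (zz Z) ((N + bb q) / HH q)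

/-- the weighted number of representations of `N` which are good for the residue `a` -/
noncomputable def Tsum (W c Z J a N : ℕ) : ℝ :=
  ∑ q ∈ (Box W c Z).filter (fun q => Rp Z J q N ∧ Gd a (N + bb q)), ws (HH q) / wt (N + bb q)

/-- `N = m - x - u - v` with `m ≤ Y` good for `a` -/
def RepA (Y a N : ℕ) : Prop := ∃ x u v m : ℕ, x.Coprime u ∧ x.Coprime v ∧ u.Coprime v ∧
  x * u * v ∣ m ∧ Odd m ∧ m ≤ Y ∧ Gd a m ∧ N + x + u + v = m

/-- truncation point -/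
def TZ (Z : ℕ) : ℕ := Nat.log 2 Z ^ 40

/-- the weight of a pair of quadruples in the second moment -/
noncomputable def pairWt (W Z : ℕ) (p : (ℕ × ℕ × ℕ × ℕ) × (ℕ × ℕ × ℕ × ℕ)) : ℝ :=
  fw (HH p.1) * fw (HH p.2) * 4 ^ ((HH p.1).gcd (HH p.2)).primeFactors.card *
    ((HH p.1).gcd (HH p.2) : ℝ) * Ph W (zz Z) ((bb p.1 : ℤ) - bb p.2).natAbs

/-- the sum over all pairs with `t | H, H'` and `lcm(t,d) | b - b' ≠ 0` -/
noncomputable def pairSum (W c Z t d : ℕ) : ℝ :=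
  ∑ p ∈ (Box W c Z ×ˢ Box W c Z).filter (fun p => bb p.1 ≠ bb p.2 ∧ t ∣ HH p.1 ∧ t ∣ HH p.2 ∧
    ((t.lcm d : ℕ) : ℤ) ∣ (bb p.1 : ℤ) - bb p.2), fw (HH p.1) * fw (HH p.2)

/-- the coefficient of `(t, d)` -/
noncomputable def cf (t d : ℕ) : ℝ := (t : ℝ) * 4 ^ t.primeFactors.card / d.totient

/-- the residue class statement: the primes in a proportion `1 - ε` of the reduced classes modulo
some `M` satisfy `P` -/
def MostClasses (ε : ℝ) (P : ℕ → Prop) : Prop := ∃ M : ℕ, 1 ≤ M ∧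
  (1 - ε) * (M.totient : ℝ) ≤
    (((range M).filter (fun a => a.Coprime M ∧ ∀ p : ℕ, p.Prime → p ≡ a [MOD M] → P p)).card : ℝ)

/-- lower logarithmic density at least `1 - ε` among the primes, with bounded error -/
def MostPrimes (ε : ℝ) (P : ℕ → Prop) : Prop := ∃ C : ℝ, ∀ y : ℕ, 1 ≤ y →
  (1 - ε) * Real.log y - C ≤
    ∑ p ∈ (Icc 1 y).filter (fun p => p.Prime ∧ P p), Real.log p / p

end Pool.Agent.Lib.MP_ba0fa5_ag.AA
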